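import Mathlib

set_option autoImplicit false

namespace Pool.Agent.Results.MP_405999_gt.Sober

open Filter Topology

universe u

variable {L : Type u} [Order.Frame L]

/-- filters on `L` -/
def IsFilt (F : Set L) : Prop :=
  ⊤ ∈ F ∧ (∀ u v, u ∈ F → u ≤ v → v ∈ F) ∧ ∀ u v, u ∈ F → v ∈ F → u ⊓ v ∈ F

/-- Scott-open subsets: a (nonempty) directed family with supremum in `F` meets `F` -/
def ScottOpen (F : Set L) : Prop :=
  ∀ D : Set L, D.Nonempty → DirectedOn (· ≤ ·) D → sSup D ∈ F → ∃ d ∈ D, d ∈ F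

/-- the join of two filters -/
def join (F G : Set L) : Set L := {w | ∃ u ∈ F, ∃ v ∈ G, w = u ⊓ v}

variable (L) in
/-- locally temperate frames -/
def LocTemperate : Prop :=
  ∀ F G : Set L, IsFilt F → ScottOpen F → IsFilt G → ScottOpen G → ScottOpen (join F G)

variable (L) in
/-- points: completely prime filters -/
def Pt : Type u := {x : Set L // IsFilt x ∧ ∀ S : Set L, sSup S ∈ x → ∃ u ∈ S, u ∈ x}

/-- the basic open sets -/
def O (u : L) : Set (Pt L) := {x | u ∈ x.1}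

/-- the open sets of the space of points are the sets `O u` -/
instance top : TopologicalSpace (Pt L) where
  IsOpen U := ∃ u, U = O u
  isOpen_univ := ⟨⊤, by ext x; simpa [O] using x.2.1.1⟩
  isOpen_inter := by
    rintro _ _ ⟨u, rfl⟩ ⟨v, rfl⟩
    refine ⟨u ⊓ v, ?_⟩
    ext x
    exact ⟨fun h => x.2.1.2.2 _ _ h.1 h.2,
      fun h => ⟨x.2.1.2.1 _ _ h inf_le_left, x.2.1.2.1 _ _ h inf_le_right⟩⟩
  isOpen_sUnion := by
    intro S hS
    refine ⟨sSup {u | O u ∈ S}, ?_⟩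
    ext x
    constructor
    · rintro ⟨U, hU, hx⟩
      obtain ⟨u, rfl⟩ := hS U hU
      exact x.2.1.2.1 _ _ hx (le_sSup hU)
    · intro hx
      obtain ⟨u, hu, h⟩ := x.2.2 _ hx
      exact ⟨_, hu, h⟩

lemma isOpen_O (u : L) : IsOpen (O u) := ⟨u, rfl⟩

lemma le_nhds_iff' (U : Filter (Pt L)) (x : Pt L) : U ≤ 𝓝 x ↔ ∀ u ∈ x.1, O u ∈ U := by
  rw [le_nhds_iff]
  constructor
  · intro h u hu; exact h _ hu (isOpen_O u)
  · rintro h _ hx ⟨u, rfl⟩; exact h u hx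

lemma mem_closure_single (x y : Pt L) : y ∈ closure {x} ↔ y.1 ⊆ x.1 := by
  rw [mem_closure_iff]
  constructor
  · intro h u hu
    obtain ⟨z, hz, rfl⟩ := h _ (isOpen_O u) hu
    exact hz
  · rintro h _ ⟨u, rfl⟩ hu
    exact ⟨x, h hu, rfl⟩

lemma join_filt {F G : Set L} (hF : IsFilt F) (hG : IsFilt G) : IsFilt (join F G) := by
  refine ⟨⟨⊤, hF.1, ⊤, hG.1, by simp⟩, ?_, ?_⟩
  · rintro _ w ⟨u, hu, v, hv, rfl⟩ h
    refine ⟨u ⊔ w, hF.2.1 _ _ hu le_sup_left, v ⊔ w, hG.2.1 _ _ hv le_sup_left, ?_⟩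
    rw [← sup_inf_right, sup_eq_right.2 h]
  · rintro _ _ ⟨u, hu, v, hv, rfl⟩ ⟨u', hu', v', hv', rfl⟩
    exact ⟨u ⊓ u', hF.2.2 _ _ hu hu', v ⊓ v', hG.2.2 _ _ hv hv', by ac_rfl⟩

lemma exists_pt {H : Set L} (hH : IsFilt H) (hS : ScottOpen H) {w : L} (hw : w ∉ H) :
    ∃ z : Pt L, H ⊆ z.1 ∧ w ∉ z.1 := by
  obtain ⟨p, hwp, hp⟩ := zorn_le_nonempty₀ Hᶜ (fun c hc hch y hy =>
    ⟨sSup c, fun h => by
      obtain ⟨d, hd, hd2⟩ := hS c ⟨y, hy⟩ hch.directedOn h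
      exact hc hd hd2, fun z hz => le_sSup hz⟩) w hw
  have key : ∀ t, ¬ t ≤ p → t ⊔ p ∈ H := by
    intro t ht
    by_contra h
    exact ht (le_sup_left.trans (hp.2 h le_sup_right))
  refine ⟨⟨{t | ¬ t ≤ p}, ⟨?_, ?_, ?_⟩, ?_⟩, ?_, ?_⟩
  · intro h; exact hp.1 (hH.2.1 _ _ hH.1 h)
  · intro u v hu huv h; exact hu (huv.trans h)
  · intro u v hu hv h
    have := hH.2.2 _ _ (key u hu) (key v hv)
    rw [← sup_inf_right, sup_eq_right.2 h] at this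
    exact hp.1 this
  · intro S hS
    by_contra h
    push Not at h
    exact hS (sSup_le fun u hu => not_not.1 (h u hu))
  · intro t ht h; exact hp.1 (hH.2.1 _ _ ht h)
  · intro h; exact h hwp

lemma meet (hL : LocTemperate L) (U : Ultrafilter (Pt L)) {x y : Pt L} (hx : ↑U ≤ 𝓝 x)
    (hy : ↑U ≤ 𝓝 y) {u v : L} (hu : u ∈ x.1) (hv : v ∈ y.1) :
    ∃ z : Pt L, ↑U ≤ 𝓝 z ∧ u ⊓ v ∈ z.1 := by
  have so : ∀ z : Pt L, ScottOpen z.1 := fun z D _ _ h => z.2.2 D h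
  have hS := hL x.1 y.1 x.2.1 (so x) y.2.1 (so y)
  have hF := join_filt x.2.1 y.2.1
  rw [le_nhds_iff'] at hx hy
  have hw : sSup {t : L | O t ∉ U} ∉ join x.1 y.1 := by
    intro h
    obtain ⟨_, hd, a, ha, b, hb, rfl⟩ := hS _ ⟨⊥, by
      intro h
      obtain ⟨z, hz⟩ := U.nonempty_of_mem h
      obtain ⟨_, h2, -⟩ := z.2.2 ∅ (by simpa [O] using hz)
      exact h2⟩ (by
      intro s hs t ht
      refine ⟨s ⊔ t, fun h => ?_, le_sup_left, le_sup_right⟩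
      have : O s ∪ O t ∈ U := by
        refine mem_of_superset h fun z hz => ?_
        obtain ⟨r, hr, hr2⟩ := z.2.2 {s, t} (by simpa [O] using hz)
        rcases hr with rfl | rfl
        · exact Or.inl hr2
        · exact Or.inr hr2
      rcases Ultrafilter.union_mem_iff.1 this with h | h
      · exact hs h
      · exact ht h) h
    exact hd (mem_of_superset (inter_mem (hx a ha) (hy b hb)) fun z hz =>
      z.2.1.2.2 _ _ hz.1 hz.2)
  obtain ⟨z, hz1, hz2⟩ := exists_pt hF hS hw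
  refine ⟨z, (le_nhds_iff' _ _).2 fun t ht => ?_, hz1 ⟨u, hu, v, hv, rfl⟩⟩
  by_contra h
  exact hz2 (z.2.1.2.1 _ _ ht (le_sSup h))

theorem result (L : Type u) [Order.Frame L] (hL : LocTemperate L) (U : Ultrafilter (Pt L)) :
    {y : Pt L | ↑U ≤ 𝓝 y} = ∅ ∨ ∃! x : Pt L, {y : Pt L | ↑U ≤ 𝓝 y} = closure {x} := by
  by_cases hC : {y : Pt L | ↑U ≤ 𝓝 y} = ∅
  · exact Or.inl hC
  right
  obtain ⟨y0, hy0⟩ := Set.nonempty_iff_ne_empty.2 hC
  let x : Pt L := ⟨{u | ∃ y : Pt L, ↑U ≤ 𝓝 y ∧ u ∈ y.1},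
    ⟨⟨y0, hy0, y0.2.1.1⟩, fun u v ⟨y, h1, h2⟩ h => ⟨y, h1, y.2.1.2.1 _ _ h2 h⟩,
      fun u v ⟨_, h1, h2⟩ ⟨_, h3, h4⟩ => meet hL U h1 h3 h2 h4⟩,
    fun S ⟨y, h1, h2⟩ => by
      obtain ⟨u, hu, h3⟩ := y.2.2 S h2
      exact ⟨u, hu, y, h1, h3⟩⟩
  have hx : {y : Pt L | ↑U ≤ 𝓝 y} = closure {x} := by
    ext y
    rw [mem_closure_single]
    constructor
    · intro h u hu; exact ⟨y, h, hu⟩
    · intro h
      refine (le_nhds_iff' _ _).2 fun u hu => ?_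
      obtain ⟨z, h1, h2⟩ := h hu
      exact (le_nhds_iff' _ _).1 h1 u h2
  refine ⟨x, hx, fun x' hx' => ?_⟩
  have e : closure {x'} = closure {x} := hx'.symm.trans hx
  apply Subtype.ext
  apply Set.Subset.antisymm
  · rw [← mem_closure_single, ← e]; exact subset_closure rfl
  · rw [← mem_closure_single, e]; exact subset_closure rfl

end Pool.Agent.Results.MP_405999_gt.Sober
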